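import Pool.Agent.H85R3.HSMain

/-! Closed hyperbolic surfaces of large systole violate the bound `λ_i ≥ K i L_i / g²`. -/

set_option autoImplicit false

open scoped MatrixGroups UpperHalfPlane ENNReal
open MeasureTheory UpperHalfPlane

namespace Pool.Agent.Results.MP_d28b99_gt.LargeSystole

open Pool.Agent.H85R3.HS

/-- **Theorem.** There is no constant `K > 0` such that `λ_i ≥ K i L_i / g²` for all closed
hyperbolic surfaces and all `1 ≤ i ≤ 2 g - 3`. -/
theorem result : ∀ K : ℝ, 0 < K → ∃ Γ : Subgroup SL(2, ℝ), IsClosedSurface Γ ∧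
    ∃ i : ℕ, 1 ≤ i ∧ (i : ℝ) ≤ 2 * genus Γ - 3 ∧
      ENNReal.ofReal (eigenvalue Γ i) < ENNReal.ofReal (K * i / genus Γ ^ 2) * cutLength Γ i := by
  intro K hK
  obtain ⟨r₀, hr₀, hr₀v⟩ := volume_ball_large (2 * Real.pi)
  set r : ℝ := max 2 r₀ with hr
  have hr2 : 2 ≤ r := le_max_left _ _
  have hrv : ENNReal.ofReal (2 * Real.pi) ≤ volume (Metric.ball UpperHalfPlane.I r) :=
    hr₀v.trans (measure_mono (Metric.ball_subset_ball (le_max_right _ _)))
  set V : ℝ := (volume (Metric.ball UpperHalfPlane.I (2 * r))).toReal with hVdef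
  have hVe : ENNReal.ofReal V = volume (Metric.ball UpperHalfPlane.I (2 * r)) :=
    ENNReal.ofReal_toReal (volume_ball_lt_top _ _).ne
  have hV : 0 < V := ENNReal.toReal_pos (volume_ball_ne_zero (by linarith))
    (volume_ball_lt_top _ _).ne
  obtain ⟨R, hR, hRv⟩ := volume_ball_large (2 * V)
  set S : ℝ := max (max (2 * r) (2 * R)) (4 * (1 + V) ^ 2 * (Lam + 1) / K) with hSdef
  have hSr : 2 * r ≤ S := (le_max_left _ _).trans (le_max_left _ _)
  have hSR : 2 * R ≤ S := (le_max_right _ _).trans (le_max_left _ _)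
  have hSK : 4 * (1 + V) ^ 2 * (Lam + 1) / K ≤ S := le_max_right _ _
  have hS : 0 < S := by linarith
  obtain ⟨N, -, hN, hM⟩ := exists_level S
  set Γ := cong N with hΓ
  have hM : MovesFar Γ S := hM
  obtain ⟨Q, hQ, hQΓ⟩ := cocompact hN
  obtain ⟨D, hDm, hD⟩ := hM.exists_domain hS
  obtain ⟨n, z, hz, hn1, hn2⟩ := exists_packing hM hS hQ hQΓ (by linarith) hSr hD
  have hDfin : volume D < ⊤ := (hM.volume_le_of_cover hS hD hQΓ).trans_lt hQ.measure_lt_top
  have hA : area Γ = (volume D).toReal := by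
    unfold area
    rw [hM.area_eq hS hD]
  have hAe : ENNReal.ofReal (area Γ) = volume D := by
    rw [hA, ENNReal.ofReal_toReal hDfin.ne]
  -- the area is large
  have hbig : ENNReal.ofReal (2 * V) ≤ volume D := by
    refine hRv.trans (hM.volume_ge_of_packing hS hD Metric.isOpen_ball.measurableSet ?_)
    intro g hg hg1 w hw hw'
    have h1 := hM g hg hg1 w
    rw [Metric.mem_ball] at hw hw'
    have h2 := dist_triangle_right w (g • w) UpperHalfPlane.I
    linarith
  have hA2V : 2 * V ≤ area Γ := by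
    rw [← hAe] at hbig
    exact (ENNReal.ofReal_le_ofReal_iff (by rw [hA]; exact ENNReal.toReal_nonneg)).mp hbig
  have hA0 : 0 < area Γ := by linarith
  have hAV : area Γ ≤ n * V := by
    rw [← hAe, ← hVe, ← ENNReal.ofReal_natCast, ← ENNReal.ofReal_mul (by positivity)] at hn2
    exact (ENNReal.ofReal_le_ofReal_iff (by positivity)).mp hn2
  have hAn : n * (2 * Real.pi) ≤ area Γ := by
    have h1 : (n : ℝ≥0∞) * ENNReal.ofReal (2 * Real.pi) ≤ volume D :=
      (mul_le_mul_right hrv _).trans hn1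
    rw [← hAe, ← ENNReal.ofReal_natCast, ← ENNReal.ofReal_mul (by positivity)] at h1
    exact (ENNReal.ofReal_le_ofReal_iff hA0.le).mp h1
  have hn : (2 : ℝ) ≤ n := by
    by_contra hlt
    push Not at hlt
    nlinarith
  have hn' : 2 ≤ n := by exact_mod_cast hn
  obtain ⟨i, rfl⟩ : ∃ i, n = i + 1 := ⟨n - 1, by omega⟩
  push_cast at hn hAV hAn
  refine ⟨Γ, ⟨hM.discrete hS, hM.free hS, Q, hQ, hQΓ⟩, i, by omega, ?_, ?_⟩
  · unfold genus
    have hpi := Real.pi_pos
    have h1 : area Γ / (4 * Real.pi) = area Γ / (2 * Real.pi) / 2 := by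
      field_simp
      norm_num
    have h2 : ((i : ℝ) + 1) ≤ area Γ / (2 * Real.pi) := by
      rw [le_div_iff₀ (by positivity)]
      exact hAn
    rw [h1]
    linarith
  · have hlam : eigenvalue Γ i ≤ Lam := eigenvalue_le hM hS (by linarith) hz
    have h1 := numerics hK hV hn hA0 hAV Lam_nonneg hSK
    have h2 : ((i : ℝ) + 1 - 1) = i := by ring
    rw [h2] at h1
    have hc : 0 ≤ K * (i : ℝ) / genus Γ ^ 2 := by positivity
    calc ENNReal.ofReal (eigenvalue Γ i) ≤ ENNReal.ofReal Lam := ENNReal.ofReal_le_ofReal hlam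
      _ < ENNReal.ofReal (K * i / genus Γ ^ 2 * (i * S)) := by
          rw [ENNReal.ofReal_lt_ofReal_iff_of_nonneg Lam_nonneg]
          exact h1
      _ = ENNReal.ofReal (K * i / genus Γ ^ 2) * ((i : ℝ≥0∞) * ENNReal.ofReal S) := by
          rw [ENNReal.ofReal_mul hc, ENNReal.ofReal_mul (by positivity), ENNReal.ofReal_natCast]
      _ ≤ _ := by
          gcongr
          exact cutLength_ge hM hS i

end Pool.Agent.Results.MP_d28b99_gt.LargeSystole
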